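import Pool.Agent.Helper48.UP.D

/-!
Linear digit systems: a prime which divides a denominator and no numerator forbids ultimate
periodicity, and so do all systems obtained by the symmetries of the question.
-/

set_option autoImplicit false

namespace Pool.Agent.Results.MP_cbe1cc_nt.MonotonePrime

open Pool.Agent.Helper48.UP

theorem mono_iff {p : ℕ} {b b' : ZMod p → ℚ} {σ : Equiv.Perm (ZMod p)}
    (hb : ∀ r, b' r = b (σ r) ∨ b' r = -b (σ r)) (v : ℕ) : Mono p b' v ↔ Mono p b v := by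
  have h1 : ∀ r, padicNorm v (b' r) = padicNorm v (b (σ r)) := fun r => by
    rcases hb r with h | h
    · rw [h]
    · rw [h, padicNorm.neg]
  unfold Mono
  constructor
  · rintro ⟨h2, h3, h4⟩
    refine ⟨h2, h3, fun r => ?_⟩
    have := h4 (σ.symm r)
    rwa [h1, Equiv.apply_symm_apply] at this
  · rintro ⟨h2, h3, h4⟩
    exact ⟨h2, h3, fun r => by rw [h1]; exact h4 _⟩

theorem result (p : ℕ) (hp : 2 ≤ p) (a b : ZMod p → ℚ) (hF : IsSys p a b)
    (l : ℕ) (hl : Mono p b l) (r0 : ZMod p) (hr0 : padicNorm l (b r0) ≠ 1)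
    (β : ℚ) (hβ : ∀ r, (∀ v, Mono p b v → padicNorm v (b r) = 1) → b r = β ∨ b r = -β)
    (a' b' : ZMod p → ℚ) (hG : IsSys p a' b') (σ : Equiv.Perm (ZMod p))
    (hb : ∀ r, b' r = b (σ r) ∨ b' r = -b (σ r)) :
    ¬ UltPer p a b ∧ ¬ UltPer p a' b' := by
  have h1 : ∀ v r, padicNorm v (b' r) = padicNorm v (b (σ r)) := fun v r => by
    rcases hb r with h | h
    · rw [h]
    · rw [h, padicNorm.neg]
  refine ⟨not_up hp hF hl hr0 hβ, not_up hp hG ((mono_iff hb l).2 hl) (r0 := σ.symm r0) ?_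
    (β := β) ?_⟩
  · rw [h1, Equiv.apply_symm_apply]; exact hr0
  · intro r hr
    have h2 := hβ (σ r) fun v hv => by
      rw [← h1]; exact hr v ((mono_iff hb v).2 hv)
    rcases hb r with h | h <;> rcases h2 with h3 | h3 <;> rw [h, h3]
    · exact Or.inl rfl
    · exact Or.inr rfl
    · exact Or.inr rfl
    · exact Or.inl (neg_neg _)

end Pool.Agent.Results.MP_cbe1cc_nt.MonotonePrime
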